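import Pool.Agent.U722.FF.Lb6
import Pool.Agent.U722.FF.Li

/-!
# `L²`-torsion and torsion in the homology of finite covers: linear groups of rank two over `ℤ[x_1, ..., x_n]`

Let `M` be a closed aspherical manifold of dimension `2 k + 1 ≥ 3` whose fundamental group `Γ` is isomorphic to a
subgroup of `GL_2(ℤ[x_1, ..., x_n])` for some `n`. We show that all the `L²`-Betti numbers of `Γ` vanish, so that
the hypothesis of the problem is always satisfied, and that every nontrivial finitely generated subgroup of `Γ`
maps onto `ℤ`. By the last fact listed in the problem file the equality between the `L²`-torsion and the limit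
of the torsion in the homology of the finite covers holds for all these manifolds. Our theorem is proved, without
hypothesis, for all Poincare duality groups of dimension `2 k + 1` (of type FL).

Outline. A finitely generated torsion-free subgroup of `GL_2(ℤ[x_1, ..., x_n])` acts on a tree with finitely many
orbits, finitely generated abelian stabilizers of edges, and finitely generated abelian or free stabilizers of
vertices (`Pool.Agent.U722.FF.Str`). (1) The homology with coefficients in the Ore localization of the group von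
Neumann algebra vanishes in all degrees `≥ 2`, and duality gives the other degrees. (2) If such a group has no
nontrivial homomorphism to `ℤ` then the quotient graph is a tree, and a count of dimensions of the spaces of
homomorphisms from the stabilizers to `ℚ` gives a nontrivial homomorphism to `ℚ`.
-/

set_option autoImplicit false

namespace Pool.Agent.Results.MP_98dedd_gt.PolynomialMatrixGroups

open Pool.Agent.N496.CV

/-- `G` is isomorphic to a subgroup of `GL_2(ℤ[x_1, ..., x_n])` -/
def Lin (n : ℕ) (G : Type) [Group G] : Prop :=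
  ∃ ρ : G →* GL (Fin 2) (MvPolynomial (Fin n) ℤ), Function.Injective ρ

/-- only the unit element has finite order -/
def TorsionFree (G : Type) [Group G] : Prop := ∀ g : G, ∀ k : ℕ, 0 < k → g ^ k = 1 → g = 1

/-- every nontrivial finitely generated subgroup maps onto the integers -/
def LocInd (G : Type) [Group G] : Prop := ∀ H : Subgroup G, H.FG → H ≠ ⊥ →
  ∃ f : H →* Multiplicative ℤ, Function.Surjective f

theorem onto {H : Type} [Group H] (f : H →* Multiplicative ℤ) (hf : f ≠ 1) :
    ∃ g : H →* Multiplicative ℤ, Function.Surjective g := by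
  let S : AddSubgroup ℤ :=
    { carrier := {z | ∃ h, f h = Multiplicative.ofAdd z}
      zero_mem' := ⟨1, map_one f⟩
      add_mem' := by
        rintro a b ⟨x, hx⟩ ⟨y, hy⟩
        exact ⟨x * y, by rw [map_mul, hx, hy]; rfl⟩
      neg_mem' := by
        rintro a ⟨x, hx⟩
        exact ⟨x⁻¹, by rw [map_inv, hx]; rfl⟩ }
  obtain ⟨a, ha⟩ := Int.subgroup_cyclic S
  have hdvd : ∀ h, ∃ k : ℤ, (f h).toAdd = k * a := by
    intro h
    have h1 : (f h).toAdd ∈ S := ⟨h, rfl⟩
    rw [ha, AddSubgroup.mem_closure_singleton] at h1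
    obtain ⟨k, hk⟩ := h1
    exact ⟨k, by rw [← hk, smul_eq_mul]⟩
  have ha0 : a ≠ 0 := by
    rintro rfl
    apply hf
    ext h
    obtain ⟨k, hk⟩ := hdvd h
    rw [mul_zero] at hk
    rw [MonoidHom.one_apply]
    exact hk
  choose k hk using hdvd
  have hmem : a ∈ S := by
    rw [ha]
    exact AddSubgroup.subset_closure rfl
  obtain ⟨h0, hh0⟩ := hmem
  refine ⟨{ toFun := fun h => Multiplicative.ofAdd (k h), map_one' := ?_, map_mul' := ?_ }, ?_⟩
  · have h1 := hk 1
    rw [map_one, toAdd_one] at h1
    have h2 : k 1 = 0 := by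
      rcases mul_eq_zero.1 h1.symm with h | h
      · exact h
      · exact absurd h ha0
    rw [h2]
    rfl
  · intro x y
    have h1 := hk (x * y)
    rw [map_mul, toAdd_mul, hk x, hk y, ← add_mul] at h1
    have h2 := mul_right_cancel₀ ha0 h1
    rw [← h2]
    rfl
  · intro z
    refine ⟨h0 ^ z.toAdd, ?_⟩
    show Multiplicative.ofAdd (k (h0 ^ z.toAdd)) = z
    have h1 := hk (h0 ^ z.toAdd)
    rw [map_zpow, hh0] at h1
    have h2 : z.toAdd * a = k (h0 ^ z.toAdd) * a := by
      rw [← h1]
      rfl
    rw [← mul_right_cancel₀ ha0 h2]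
    rfl

theorem locind (n : ℕ) (G : Type) [Group G] (h : Lin n G) (hnt : TorsionFree G) : LocInd G := by
  obtain ⟨ρ, hρ⟩ := h
  intro H hH hne
  have h1 : Nontrivial H := (Subgroup.nontrivial_iff_ne_bot H).2 hne
  have h2 : Group.FG H := (Group.fg_iff_subgroup_fg H).2 hH
  obtain ⟨f, hf⟩ := U722.FF.LI n H (ρ.comp H.subtype) (hρ.comp H.subtype_injective)
    (U722.FF.NoTor_le H.subtype H.subtype_injective hnt) h2
  exact onto f hf

/-- groups of type FL are of type FP -/
theorem fpres {G : Type} [Group G] (C : V7N.FreeRes G) (q : ℕ) (h : ∀ i, q < i → C.r i = 0) :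
    U722.FF.FPres G := by
  refine ⟨q, fun i => ModuleCat.of (MonoidAlgebra ℤ G) (Fin (C.r i) → MonoidAlgebra ℤ G),
    fun i => (C.d i).vecMulLinear, C.ε, fun i => ?_, fun i => ?_, fun i hi => ?_, ?_, C.ε_surj,
    fun x => ?_, fun i => ?_⟩
  · exact (inferInstance : Module.Projective (MonoidAlgebra ℤ G) (Fin (C.r i) → MonoidAlgebra ℤ G))
  · exact (inferInstance : Module.Finite (MonoidAlgebra ℤ G) (Fin (C.r i) → MonoidAlgebra ℤ G))
  · have h1 : IsEmpty (Fin (C.r i)) := by
      rw [h i hi]
      infer_instance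
    exact (inferInstance : Subsingleton (Fin (C.r i) → MonoidAlgebra ℤ G))
  · intro g x
    exact C.ε_smul g x
  · rw [C.exact_zero x]
    constructor
    · rintro ⟨w, hw⟩
      exact ⟨w, hw.symm⟩
    · rintro ⟨w, hw⟩
      exact ⟨w, hw.symm⟩
  · ext x
    constructor
    · intro hx
      obtain ⟨w, hw⟩ := (C.exact_succ i x).1 hx
      exact ⟨w, hw.symm⟩
    · rintro ⟨w, hw⟩
      exact (C.exact_succ i x).2 ⟨w, hw.symm⟩

/-- Let `Γ` be a Poincare duality group of odd dimension `2 k + 1 ≥ 3` (of type FL) which is isomorphic to a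
subgroup of `GL_2(ℤ[x_1, ..., x_n])`. Then `Γ` is torsion-free, every nontrivial finitely generated subgroup of
`Γ` maps onto `ℤ`, and all the `L²`-Betti numbers of `Γ` vanish. -/
theorem result : ∀ (n k : ℕ) (Γ : Type) [Group Γ], Lin n Γ → 1 ≤ k → Nonempty (PD Γ (2 * k + 1)) →
    TorsionFree Γ ∧ LocInd Γ ∧ ∀ j : ℕ, HasL2Betti Γ j 0 := by
  rintro n k Γ _ hL hk ⟨P⟩
  have h1 : TorsionFree Γ := U722.FF.NOTOR Γ (fpres P.C _ P.zeroC)
  refine ⟨h1, locind n Γ hL h1, fun j => U722.FF.has0 ?_⟩
  obtain ⟨ρ, hρ⟩ := hL
  exact U722.FF.pd_all (by omega) P (fun j hj => U722.FF.L2SUB n Γ ρ hρ j hj) j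

end Pool.Agent.Results.MP_98dedd_gt.PolynomialMatrixGroups
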