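import Pool.Agent.Q181.TG.Fin

/-!
# The bound `3 / √2` for the convergence of the torsion growth is sharp

`Γ` is a group and `ℤ[Γ]^ι → ℤ[Γ]^κ → ℤ[Γ]^θ` is a part of a complex of finitely generated free modules,
with matrices `A`, `B`. For a finite `Γ`-set `X`, for instance `X = Γ ⧸ N`, it gives a complex of free
abelian groups; if the complex is the cellular chain complex of the universal cover of a finite
aspherical complex, its homology is `H_k` of the finite cover.

If the `ℓ²`-norm of `A` is less than `3 / √2`, then the normalized torsion of the middle homology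
converges along all chains to one number `log K` (starting file `LimitBelowThreshold`; the group is
any torsion-free group). Here the opposite is proved for every number `c > 3 / √2`: over the integral
group ring of the (torsion-free, nilpotent) discrete Heisenberg group there are square matrices of norm at most `c`
for which the normalized torsion of the middle homology converges, depending on the chain,
to every number in the interval `(0, log N]`, with `N` prescribed, and to no number for some
chain. For all these chains the middle homology of all levels is finite, so its rational Betti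
numbers vanish.
-/

set_option autoImplicit false

namespace Pool.Agent.Results.MP_98dedd_gt.ThresholdSharp

open Pool.Agent.Q181.TG TH57.Thr Filter Topology Matrix Pool.Agent.Helper993.HeisDet

/-- The homology, at the middle term, of the complex `ℤ^(X × ι) → ℤ^(X × κ) → ℤ^(X × θ)` of the
`Γ`-set `X`. -/
abbrev Hom {G : Type} [Group G] {ι κ θ : Type} [Fintype κ]
    (A : Matrix ι κ (MonoidAlgebra ℤ G)) (B : Matrix κ θ (MonoidAlgebra ℤ G)) (X : Type)
    [Fintype X] [MulAction G X] : Type :=
  LinearMap.ker (reg X B).vecMulLinear ⧸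
    (Submodule.span ℤ (Set.range (reg X A))).submoduleOf (LinearMap.ker (reg X B).vecMulLinear)

/-- The order of the torsion subgroup of the middle homology. -/
noncomputable def torsH {G : Type} [Group G] {ι κ θ : Type} [Fintype κ]
    (A : Matrix ι κ (MonoidAlgebra ℤ G)) (B : Matrix κ θ (MonoidAlgebra ℤ G)) (X : Type)
    [Fintype X] [MulAction G X] : ℕ := tc (Hom A B X)

/-- The logarithm of the order of the torsion subgroup of the middle homology, divided by the index,
at the level `i` of a sequence of subgroups. -/
noncomputable def normTors {G : Type} [Group G] {ι κ θ : Type} [Fintype κ]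
    (A : Matrix ι κ (MonoidAlgebra ℤ G)) (B : Matrix κ θ (MonoidAlgebra ℤ G)) (N : ℕ → Subgroup G)
    [∀ i, Fintype (G ⧸ N i)] (i : ℕ) : ℝ :=
  Real.log (torsH A B (G ⧸ N i)) / (N i).index

/-- A decreasing chain of normal subgroups of finite index with trivial intersection. -/
def IsChain {G : Type} [Group G] (N : ℕ → Subgroup G) : Prop :=
  (∀ n, (N n).Normal) ∧ (∀ n, (N n).FiniteIndex) ∧ N 0 = ⊤ ∧ Antitone N ∧ ⨅ n, N n = ⊥

/-- `C` is a chain of subgroups for which, for all `B` with `A * B = 0`, the middle homology of all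
levels is finite and the sequence of its normalized torsions satisfies `P`. -/
def Along {G : Type} [Group G] {κ : Type} [Fintype κ] (A : Matrix κ κ (MonoidAlgebra ℤ G))
    (P : (ℕ → ℝ) → Prop) (C : ℕ → Subgroup G) : Prop :=
  IsChain C ∧ ∃ _ : ∀ i, Fintype (G ⧸ C i), ∀ (θ : Type) [Fintype θ]
    (B : Matrix κ θ (MonoidAlgebra ℤ G)), A * B = 0 →
      (∀ i, Finite (Hom A B (G ⧸ C i))) ∧ P (normTors A B C)

/-- The sequence `a` has a limit in `ℝ`. -/
def Converges (a : ℕ → ℝ) : Prop := ∃ x : ℝ, Tendsto a atTop (𝓝 x)

theorem key {G : Type} [Group G] {ι κ θ : Type} [Fintype κ] [Fintype θ]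
    (A : Matrix ι κ (MonoidAlgebra ℤ G)) (B : Matrix κ θ (MonoidAlgebra ℤ G)) (hAB : A * B = 0)
    (X : Type) [Fintype X] [MulAction G X] :
    torsH A B X = tc (Cok (reg X A)) ∧
      (Finite (Cok (reg X A)) → Finite (Hom A B X)) := by
  classical
  constructor
  · have h0 : reg X (0 : Matrix ι θ (MonoidAlgebra ℤ G)) = 0 := by
      ext p q
      simp [reg]
    exact Pool.Agent.Q66.TG.t_hom _ _ _ (reg X A) (reg X B)
      (by rw [← Pool.Agent.Q151.TG.reg_mul, hAB, h0])
  · intro hf
    let φ : Hom A B X →ₗ[ℤ] Cok (reg X A) :=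
      Submodule.mapQ _ _ (LinearMap.ker (reg X B).vecMulLinear).subtype le_rfl
    refine Finite.of_injective φ ?_
    rw [← LinearMap.ker_eq_bot, LinearMap.ker_eq_bot']
    intro x hx
    obtain ⟨v, rfl⟩ := Submodule.Quotient.mk_surjective _ x
    have h1 : φ (Submodule.Quotient.mk v) = Submodule.Quotient.mk (v : X × κ → ℤ) := rfl
    rw [h1, Submodule.Quotient.mk_eq_zero] at hx
    rw [Submodule.Quotient.mk_eq_zero]
    exact hx

/-- Let `c > 3 / √2` and `N ≥ 2`. There is a square matrix `A` over the integral group ring of the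
discrete Heisenberg group, of `ℓ²`-norm at most `c`, such that for every number `0 < x ≤ log N` there is a
chain of normal subgroups of finite index with trivial intersection for which, for all `B` with
`A * B = 0`, the middle homology of all levels is finite and its normalized torsion converges to
`x`; if `N = 10`, there is also such a chain for which the normalized torsion has no limit. -/
theorem result (c : ℝ) (hc : 3 / Real.sqrt 2 < c) (N : ℕ) (hN : 2 ≤ N) :
    ∃ (n : ℕ) (A : Matrix (Fin n) (Fin n) (MonoidAlgebra ℤ (Heis ℤ))), NormLE A c ∧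
      (∀ x : ℝ, 0 < x → x ≤ Real.log N →
        ∃ C : ℕ → Subgroup (Heis ℤ), Along A (fun a => Tendsto a atTop (𝓝 x)) C) ∧
      (N = 10 → ∃ C : ℕ → Subgroup (Heis ℤ), Along A (fun a => ¬ Converges a) C) := by
  obtain ⟨n, A, hA, h1, h2⟩ := f_neg c hc N hN
  have hn : ∀ (C : ℕ → Subgroup (Heis ℤ)) [∀ i, Fintype (Heis ℤ ⧸ C i)] (θ : Type) [Fintype θ]
      (B : Matrix (Fin n) θ (MonoidAlgebra ℤ (Heis ℤ))), A * B = 0 →
      normTors A B C = nlog A C := by
    intro C _ θ _ B hAB
    funext i
    unfold normTors nlog
    rw [(key A B hAB _).1]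
    rfl
  refine ⟨n, A, hA, ?_, ?_⟩
  · intro x hx hx'
    obtain ⟨C, c1, c2, c3, c4, c5, c6, c7⟩ := h1 x hx hx'
    have := c2
    have fi : ∀ i, Fintype (Heis ℤ ⧸ C i) := fun i => Fintype.ofFinite _
    refine ⟨C, ⟨c1, c2, c3, c4, c5⟩, fi, fun θ _ B hAB => ⟨?_, ?_⟩⟩
    · exact fun i => (key A B hAB _).2 (c6 i)
    · rw [hn C θ B hAB]
      exact c7
  · intro hN'
    obtain ⟨C, c1, c2, c3, c4, c5, c6, c7⟩ := h2 hN'
    have := c2
    have fi : ∀ i, Fintype (Heis ℤ ⧸ C i) := fun i => Fintype.ofFinite _
    refine ⟨C, ⟨c1, c2, c3, c4, c5⟩, fi, fun θ _ B hAB => ⟨?_, ?_⟩⟩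
    · exact fun i => (key A B hAB _).2 (c6 i)
    · rw [hn C θ B hAB]
      exact c7

end Pool.Agent.Results.MP_98dedd_gt.ThresholdSharp
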