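import Pool.Agent.U820.LT.Fin2
import Pool.Agent.U820.LT.F54.End

/-!
# `L²`-torsion does not predict the torsion growth in the middle dimension

There is a flag triangulation `S` of the `PL` sphere of dimension `6` such that, for the Davis complex of the
right-angled Coxeter group of `S` (a contractible `PL` manifold of dimension `7`) and its torsion-free normal subgroup
`Γ` of finite index, the closed aspherical manifold `M = (Davis complex / Γ)³` of dimension `21` has a
det-`L²`-acyclic universal covering with `L²`-torsion `0`, but the order of the torsion of `H_10` grows exponentially
in the index in its coverings, for all normal chains of `Γ`.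

The triangulation `S` is an iterated edge subdivision of an explicit flag triangulation, which comes from a
triangulation with 54,430 facets found by computer search. It contains the octahedralization `[3] * O_U(M)` for a
complex `M` of dimension `2` with `H_2(M; F_3)` of dimension one and with zero real homology in dimension `2`, and it
is certified here as a `PL` sphere by a sequence of 51,033 bistellar flips from the boundary of the `7`-simplex.
-/

set_option autoImplicit false

noncomputable section

namespace Pool.Agent.Results.MP_98dedd_gt.TorsionCounterexample

open Filter Pool.Agent.U729.LT Pool.Agent.U966.LD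

theorem result : ∃ (n : ℕ) (S : SimpleGraph (Fin n)), PLS 7 (cl S) ∧ (∃ K : ℕ → Subgroup (Gam S), Chain K) ∧
    (davis S).free.DetL2Acyclic ∧ ((davis S).prod ((davis S).prod (davis S))).free.DetL2Acyclic ∧
    ((davis S).prod ((davis S).prod (davis S))).free.l2torsion = 0 ∧
    ∃ b : ℝ, 0 < b ∧ ∀ (K : ℕ → Subgroup (Gam S)) [∀ i, (K i).Normal], Chain K → ∀ᶠ i in atTop,
      b ≤ growth ((davis S).prod ((davis S).prod (davis S))) ((K i).prod ((K i).prod (K i))) 10 :=
  haveI : Fact (Nat.Prime 3) := ⟨Nat.prime_three⟩
  fin3s (p := 3) (by decide) (by norm_num) Pool.Agent.U820.LT.F54.dat Pool.Agent.U820.LT.F54.fs_lt Pool.Agent.U820.LT.F54.fs_sp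

end Pool.Agent.Results.MP_98dedd_gt.TorsionCounterexample
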